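import Pool.Agent.Work.MP_b62331_al.Proof

set_option autoImplicit false

namespace Pool.Agent.Results.MP_b62331_al.Counterexample

/-- **Negative answer to Q1.** For every prime `p` there is a subgroup-closed class `X` of finite
groups (moreover closed under homomorphic images) such that in every finite `p`-group each maximal
normal `X`-subgroup is a maximal `X`-subgroup, and a group of order `p ^ 4` in which all three
conditions (A), (B), (C) fail. -/
theorem result (p : ℕ) (hp : p.Prime) :
    ∃ X : (P : Type) → [Group P] → Prop,
      IsSubgroupClosedClass X ∧
      (∀ (P Q : Type) [Group P] [Group Q] (f : P →* Q), Function.Surjective f → X P → X Q) ∧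
      (∀ (G : Type) [Group G] [Finite G], IsPGroup p G →
        ∀ N : Subgroup G, IsMaxNormalXSubgroup X N → IsMaxXSubgroup X N) ∧
      ∃ (G : Type) (_ : Group G), Nat.card G = p ^ 4 ∧
        ¬ ConditionA X G p ∧ ¬ ConditionB X G p ∧ ¬ ConditionC X G p :=
  main_aux p hp

end Pool.Agent.Results.MP_b62331_al.Counterexample
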